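import Pool.Agent.H36Glue.Growth

/-!
# Block gluing with `∑ B(n) / n² < ∞` forces positive entropy

A subshift over `ℤ²` with at least two points whose block gluing function satisfies
`∑ B(n) / n² < ∞` (equivalently `∑ B(2^j) / 2^j < ∞`; for instance `B(n) = O(n / (log n)^(1 + ε))`
or `B(n) = O(n^α)`, `α < 1`) has positive entropy.

The known case is that of a bounded function `B`.  The proof doubles the side of a square of
patterns at the cost of a gap `k = B(4 n) = o(n)`, `cnt(n)^4 ≤ cnt(2 n + k)`, and the relative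
losses `k / n` are summable along the scales.
-/

set_option autoImplicit false

namespace Pool.Agent.Results.MP_390418_an.SummableGluing

open Filter Topology Pool.Agent.H36Glue
open scoped ENNReal

variable {A : Type*} [Finite A]

lemma cnt_mul_le {X : Set (ℤ × ℤ → A)} (hX : Invariant X) (q n : ℕ) :
    cnt X (q * n) ≤ cnt X n ^ (q ^ 2) := by
  classical
  let F : (Lang X (q * n)) → (Fin q × Fin q → Lang X n) := fun p c =>
    ⟨fun i => p.1 (finProdFinEquiv (c.1, i.1), finProdFinEquiv (c.2, i.2)), by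
      obtain ⟨x, hx, hp⟩ := p.2
      refine ⟨tr (((n * (c.1 : ℕ) : ℕ) : ℤ), ((n * (c.2 : ℕ) : ℕ) : ℤ)) x, hX x hx _, ?_⟩
      funext i
      rw [← hp]
      simp [pat, tr, finProdFinEquiv]⟩
  have hF : Function.Injective F := by
    intro p p' h
    apply Subtype.ext
    funext ⟨a, b⟩
    have h1 := congrFun h ((finProdFinEquiv.symm a).1, (finProdFinEquiv.symm b).1)
    have h2 := congrFun (congrArg Subtype.val h1) ((finProdFinEquiv.symm a).2,
      (finProdFinEquiv.symm b).2)
    have e : ∀ c : Fin (q * n), finProdFinEquiv ((finProdFinEquiv.symm c).1,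
        (finProdFinEquiv.symm c).2) = c := fun c => finProdFinEquiv.apply_symm_apply c
    simp only [F] at h2
    rw [e, e] at h2
    exact h2
  have h1 := Nat.card_le_card_of_injective F hF
  rw [Nat.card_fun] at h1
  have h2 : Nat.card (Fin q × Fin q) = q ^ 2 := by simp [sq]
  rw [h2] at h1
  exact h1

/-- the entropy exists as a limit -/
lemma entropy_limit {X : Set (ℤ × ℤ → A)} (hX : Invariant X) (hne : X.Nonempty) :
    Tendsto (fun n : ℕ => Real.log (cnt X n) / (n : ℝ) ^ 2) atTop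
      (𝓝 (sInf ((fun n : ℕ => Real.log (cnt X n) / (n : ℝ) ^ 2) '' Set.Ici 1))) := by
  set u : ℕ → ℝ := fun n => Real.log (cnt X n) with hu
  have hu0 : ∀ n, 0 ≤ u n := fun n => Real.log_nonneg (by exact_mod_cast one_le_cnt hne n)
  have hmono : Monotone u := fun a b hab =>
    Real.log_le_log (by exact_mod_cast one_le_cnt hne a) (by exact_mod_cast cnt_mono X hab)
  have hmul : ∀ q n, u (q * n) ≤ q ^ 2 * u n := by
    intro q n
    have h1 : (cnt X (q * n) : ℝ) ≤ (cnt X n : ℝ) ^ (q ^ 2) := by exact_mod_cast cnt_mul_le hX q n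
    have h2 := Real.log_le_log (by exact_mod_cast one_le_cnt hne (q * n)) h1
    rw [Real.log_pow] at h2
    exact_mod_cast h2
  set S := (fun n : ℕ => u n / (n : ℝ) ^ 2) '' Set.Ici 1 with hS
  have hbdd : BddBelow S := by
    refine ⟨0, ?_⟩
    rintro _ ⟨n, _, rfl⟩
    exact div_nonneg (hu0 n) (by positivity)
  have hSne : S.Nonempty := ⟨_, 1, by simp, rfl⟩
  rw [tendsto_order]
  constructor
  · intro a ha
    filter_upwards [eventually_ge_atTop 1] with n hn
    exact ha.trans_le (csInf_le hbdd ⟨n, hn, rfl⟩)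
  · intro a ha
    obtain ⟨_, ⟨n, hn, rfl⟩, hna⟩ := exists_lt_of_csInf_lt hSne ha
    have hn1 : 1 ≤ n := hn
    have hn0 : (0 : ℝ) < n := by exact_mod_cast hn1
    have hlim : Tendsto (fun N : ℕ => (1 / (n : ℝ) + 1 / (N : ℝ)) ^ 2 * u n) atTop
        (𝓝 ((1 / (n : ℝ) + 0) ^ 2 * u n)) := by
      apply Tendsto.mul_const
      apply Tendsto.pow
      apply Tendsto.add tendsto_const_nhds
      exact tendsto_one_div_atTop_nhds_zero_nat
    have hval : (1 / (n : ℝ) + 0) ^ 2 * u n < a := by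
      have : (1 / (n : ℝ) + 0) ^ 2 * u n = u n / (n : ℝ) ^ 2 := by
        rw [add_zero]; field_simp
      rw [this]
      exact hna
    filter_upwards [hlim.eventually_lt_const hval, eventually_ge_atTop 1] with N hN hN1
    refine lt_of_le_of_lt ?_ hN
    have hN0 : (0 : ℝ) < N := by exact_mod_cast hN1
    set q := N / n + 1 with hq
    have h1 : N ≤ q * n := by
      have := Nat.div_add_mod N n
      have h2 := Nat.mod_lt N (show 0 < n by omega)
      rw [hq]
      nlinarith
    have h3 : (q : ℝ) ≤ N / n + 1 := by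
      rw [hq]
      push_cast
      have := Nat.cast_div_le (α := ℝ) (m := N) (n := n)
      linarith
    have h4 : u N ≤ q ^ 2 * u n := (hmono h1).trans (hmul q n)
    have h5 : (q : ℝ) ^ 2 ≤ (N / n + 1) ^ 2 := pow_le_pow_left₀ (by positivity) h3 2
    rw [div_le_iff₀ (by positivity)]
    calc u N ≤ q ^ 2 * u n := h4
      _ ≤ (N / n + 1) ^ 2 * u n := mul_le_mul_of_nonneg_right h5 (hu0 n)
      _ = (1 / (n : ℝ) + 1 / (N : ℝ)) ^ 2 * u n * (N : ℝ) ^ 2 := by
        field_simp

/-- A doubling sequence with summable losses. -/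
lemma exists_scales (b : ℕ → ℕ) (hb : Monotone b)
    (hs : Summable fun n : ℕ => (b n : ℝ) / (n : ℝ) ^ 2) :
    ∃ (W : ℕ → ℕ) (C : ℝ), 1 ≤ W 0 ∧ 0 < C ∧ (∀ j, W (j + 1) = 2 * W j + b (4 * W j)) ∧
      (∀ j, b (W (j + 1)) ≤ b (4 * W j)) ∧ ∀ j, (W j : ℝ) ≤ C * 2 ^ j := by
  -- blocks of the series
  have hblock : ∀ n : ℕ, 1 ≤ n → (b (4 * n) : ℝ) / n ≤
      16 * ∑ m ∈ Finset.Ico (4 * n) (8 * n), (b m : ℝ) / (m : ℝ) ^ 2 := by
    intro n hn
    have hn0 : (0 : ℝ) < n := by exact_mod_cast hn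
    have h1 : ∀ m ∈ Finset.Ico (4 * n) (8 * n),
        (b (4 * n) : ℝ) / (8 * n) ^ 2 ≤ (b m : ℝ) / (m : ℝ) ^ 2 := by
      intro m hm
      rw [Finset.mem_Ico] at hm
      have hm0 : (0 : ℝ) < m := by
        have : 0 < m := by omega
        exact_mod_cast this
      have h2 : (b (4 * n) : ℝ) ≤ b m := by exact_mod_cast hb hm.1
      have h3 : (m : ℝ) ≤ 8 * n := by exact_mod_cast hm.2.le
      calc (b (4 * n) : ℝ) / (8 * n) ^ 2 ≤ (b (4 * n) : ℝ) / (m : ℝ) ^ 2 := by
            apply div_le_div_of_nonneg_left (by positivity) (by positivity)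
            exact pow_le_pow_left₀ hm0.le h3 2
        _ ≤ _ := div_le_div_of_nonneg_right h2 (by positivity)
    have h4 := Finset.card_nsmul_le_sum _ _ _ h1
    rw [Nat.card_Ico, nsmul_eq_mul] at h4
    have h5 : ((8 * n - 4 * n : ℕ) : ℝ) = 4 * n := by
      rw [show 8 * n - 4 * n = 4 * n by omega]
      push_cast
      ring
    rw [h5] at h4
    calc (b (4 * n) : ℝ) / n = 16 * (4 * n * ((b (4 * n) : ℝ) / (8 * n) ^ 2)) := by
          field_simp; ring
      _ ≤ _ := mul_le_mul_of_nonneg_left h4 (by norm_num)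
  -- smallness of the tails
  have hnn : ∀ m : ℕ, 0 ≤ (b m : ℝ) / (m : ℝ) ^ 2 := fun m => by positivity
  set T := ∑' m : ℕ, (b m : ℝ) / (m : ℝ) ^ 2 with hT
  have htail : ∃ N : ℕ, ∀ n ≥ N, 16 * ∑ m ∈ Finset.Ico (4 * n) (8 * n), (b m : ℝ) / (m : ℝ) ^ 2 ≤ 2 := by
    have h1 := hs.hasSum.tendsto_sum_nat
    have h2 : ∀ᶠ n : ℕ in atTop, T - 1 / 8 < ∑ m ∈ Finset.range n, (b m : ℝ) / (m : ℝ) ^ 2 :=
      h1.eventually_const_lt (by rw [hT]; linarith)
    obtain ⟨N, hN⟩ := eventually_atTop.1 h2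
    refine ⟨N, fun n hn => ?_⟩
    have h3 := hN (4 * n) (by omega)
    have h4 : ∑ m ∈ Finset.range (8 * n), (b m : ℝ) / (m : ℝ) ^ 2 ≤ T :=
      hs.sum_le_tsum _ (fun m _ => hnn m)
    rw [Finset.range_eq_Ico] at h3 h4
    rw [← Finset.sum_Ico_consecutive _ (Nat.zero_le (4 * n)) (by omega : 4 * n ≤ 8 * n)] at h4
    linarith
  obtain ⟨N, hN⟩ := htail
  set W0 := N + 1 with hW0
  obtain ⟨W, hWz, hWs⟩ : ∃ W : ℕ → ℕ, W 0 = W0 ∧ ∀ j, W (j + 1) = 2 * W j + b (4 * W j) :=
    ⟨fun j => Nat.rec (motive := fun _ => ℕ) W0 (fun _ v => 2 * v + b (4 * v)) j, rfl, fun _ => rfl⟩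
  have hge : ∀ j, W0 ≤ W j := by
    intro j
    induction j with
    | zero => rw [hWz]
    | succ j ih => rw [hWs]; omega
  have hpos : ∀ j, (0 : ℝ) < W j := by
    intro j
    have : 0 < W j := by have := hge j; omega
    exact_mod_cast this
  have hsmall : ∀ j, (b (4 * W j) : ℝ) ≤ 2 * W j := by
    intro j
    have h1 := (hblock (W j) (by have := hge j; omega)).trans (hN (W j) (by have := hge j; omega))
    rwa [div_le_iff₀ (hpos j)] at h1
  -- total loss
  have hloss : ∀ j, ∑ i ∈ Finset.range j, (b (4 * W i) : ℝ) / W i ≤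
      16 * ∑ m ∈ Finset.Ico (4 * W 0) (4 * W j), (b m : ℝ) / (m : ℝ) ^ 2 := by
    intro j
    induction j with
    | zero => simp
    | succ j ih =>
      have hmonoW : W 0 ≤ W j := by rw [hWz]; exact hge j
      rw [Finset.sum_range_succ]
      have h1 := hblock (W j) (by have := hge j; omega)
      have h2 : ∑ m ∈ Finset.Ico (4 * W 0) (8 * W j), (b m : ℝ) / (m : ℝ) ^ 2 ≤
          ∑ m ∈ Finset.Ico (4 * W 0) (4 * W (j + 1)), (b m : ℝ) / (m : ℝ) ^ 2 := by
        apply Finset.sum_le_sum_of_subset_of_nonneg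
        · apply Finset.Ico_subset_Ico_right
          rw [hWs]; omega
        · intro m _ _
          exact hnn m
      rw [← Finset.sum_Ico_consecutive _ (by omega : 4 * W 0 ≤ 4 * W j)
        (by omega : 4 * W j ≤ 8 * W j)] at h2
      linarith
  have hT0 : ∀ j, ∑ i ∈ Finset.range j, (b (4 * W i) : ℝ) / W i ≤ 16 * T := by
    intro j
    refine (hloss j).trans (mul_le_mul_of_nonneg_left ?_ (by norm_num))
    exact hs.sum_le_tsum _ (fun m _ => hnn m)
  have hprod : ∀ j, (W j : ℝ) ≤ W 0 * 2 ^ j *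
      Real.exp (∑ i ∈ Finset.range j, (b (4 * W i) : ℝ) / W i) := by
    intro j
    induction j with
    | zero => simp
    | succ j ih =>
      rw [Finset.sum_range_succ, Real.exp_add, hWs]
      push_cast
      have h1 : (2 * (W j : ℝ) + b (4 * W j)) ≤ 2 * W j * Real.exp ((b (4 * W j) : ℝ) / W j) := by
        have h2 := Real.add_one_le_exp ((b (4 * W j) : ℝ) / W j)
        have h3 : 2 * (W j : ℝ) + b (4 * W j) ≤ 2 * W j * ((b (4 * W j) : ℝ) / W j + 1) := by
          have h4 : 2 * (W j : ℝ) * ((b (4 * W j) : ℝ) / W j + 1) = 2 * b (4 * W j) + 2 * W j := by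
            field_simp [(hpos j).ne']
          rw [h4]
          have : (0 : ℝ) ≤ b (4 * W j) := by positivity
          linarith
        exact h3.trans (mul_le_mul_of_nonneg_left h2 (by positivity))
      refine h1.trans ?_
      have h5 := mul_le_mul_of_nonneg_left ih
        (show 0 ≤ 2 * Real.exp ((b (4 * W j) : ℝ) / W j) by positivity)
      calc 2 * (W j : ℝ) * Real.exp ((b (4 * W j) : ℝ) / W j)
          = 2 * Real.exp ((b (4 * W j) : ℝ) / W j) * W j := by ring
        _ ≤ _ := h5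
        _ = _ := by ring
  refine ⟨W, W 0 * Real.exp (16 * T), by rw [hWz]; omega, mul_pos (hpos 0) (Real.exp_pos _), hWs,
    fun j => hb ?_, fun j => ?_⟩
  · have h1 := hsmall j
    have h2 : b (4 * W j) ≤ 2 * W j := by exact_mod_cast h1
    rw [hWs]; omega
  · refine (hprod j).trans ?_
    have h1 := Real.exp_le_exp.2 (hT0 j)
    calc (W 0 : ℝ) * 2 ^ j * Real.exp (∑ i ∈ Finset.range j, (b (4 * W i) : ℝ) / W i)
        ≤ (W 0 : ℝ) * 2 ^ j * Real.exp (16 * T) := mul_le_mul_of_nonneg_left h1 (by positivity)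
      _ = _ := by ring

/-- **Summable block gluing forces positive entropy.**  Let `X` be a `ℤ²`-subshift over a finite
alphabet (closedness is not needed) with at least two points and `∑_{n ≥ 1} B(n) / n² < ∞`.  Then
the entropy `lim (log |L_n(X)|) / n²` (which exists) is positive. -/
theorem result {A : Type} [Finite A] (X : Set (ℤ × ℤ → A)) (hX : Invariant X) (h2 : X.Nontrivial)
    (hB : ∑' n : ℕ, (B X (n + 1) : ℝ≥0∞) / ((n + 1 : ℕ) : ℝ≥0∞) ^ 2 ≠ ∞) :
    ∃ h : ℝ, 0 < h ∧ Tendsto (fun n : ℕ => Real.log (cnt X n) / (n : ℝ) ^ 2) atTop (𝓝 h) := by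
  have hne : X.Nonempty := h2.nonempty
  -- `B` is finite
  have hfin : ∀ n, B X n ≠ ⊤ := by
    intro n hn
    apply hB
    have h1 : (B X (n + 1) : ℝ≥0∞) / ((n + 1 : ℕ) : ℝ≥0∞) ^ 2 = ∞ := by
      have h3 : B X (n + 1) = ⊤ := top_unique (hn ▸ B_mono hX (Nat.le_succ n))
      rw [h3, ENat.toENNReal_top]
      exact ENNReal.top_div_of_ne_top (by simp)
    exact ENNReal.tsum_eq_top_of_eq_top ⟨n, h1⟩
  choose b hb using fun n => ENat.ne_top_iff_exists.1 (hfin n)
  have hbm : Monotone b := by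
    intro m n hmn
    have := B_mono hX hmn
    rw [← hb m, ← hb n] at this
    exact_mod_cast this
  have hsum1 : Summable fun n : ℕ => (b (n + 1) : ℝ) / ((n + 1 : ℕ) : ℝ) ^ 2 := by
    have h1 := ENNReal.summable_toReal hB
    convert h1 using 2 with n
    rw [← hb (n + 1), ENNReal.toReal_div, ENNReal.toReal_pow, ENNReal.toReal_natCast]
    rfl
  have hsum : Summable fun n : ℕ => (b n : ℝ) / (n : ℝ) ^ 2 := by
    rw [← summable_nat_add_iff 1]
    exact hsum1
  obtain ⟨W, C, hW0, hC, hWs, hbW, hWC⟩ := exists_scales b hbm hsum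
  have hWpos : ∀ j, 1 ≤ W j := by
    intro j
    induction j with
    | zero => exact hW0
    | succ j ih => rw [hWs]; omega
  -- the doubling inequality along the scales
  have hcnt : ∀ j, 2 ^ 4 ^ j ≤ cnt X (W j) := by
    intro j
    induction j with
    | zero => simpa using two_le_cnt hX h2 hW0
    | succ j ih =>
      have h1 : cnt X (W j) ^ 4 ≤ cnt X (W (j + 1)) := by
        apply cnt_pow_le hX (k := b (4 * W j)) (hWs j).symm
        rw [← hb]
        exact_mod_cast hbW j
      refine le_trans ?_ h1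
      calc 2 ^ 4 ^ (j + 1) = (2 ^ 4 ^ j) ^ 4 := by rw [← pow_mul, pow_succ]
        _ ≤ _ := Nat.pow_le_pow_left ih 4
  have hlim := entropy_limit hX hne
  refine ⟨_, ?_, hlim⟩
  -- along the scales the quotients are at least `log 2 / C ^ 2`
  have hWtop : Tendsto W atTop atTop := by
    have h3 : ∀ j, j + 1 ≤ W j := by
      intro j
      induction j with
      | zero => exact hW0
      | succ j ih => rw [hWs]; omega
    exact tendsto_atTop_mono (fun j => (Nat.le_succ j).trans (h3 j)) tendsto_id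
  have hlow : ∀ j, Real.log 2 / C ^ 2 ≤ Real.log (cnt X (W j)) / (W j : ℝ) ^ 2 := by
    intro j
    have hWj : (0 : ℝ) < W j := by
      have : 0 < W j := hWpos j
      exact_mod_cast this
    have h3 : (4 : ℝ) ^ j * Real.log 2 ≤ Real.log (cnt X (W j)) := by
      have h4 : ((2 : ℝ) ^ 4 ^ j) ≤ cnt X (W j) := by exact_mod_cast hcnt j
      have h5 := Real.log_le_log (by positivity) h4
      rw [Real.log_pow] at h5
      exact_mod_cast h5
    have h6 : (W j : ℝ) ^ 2 ≤ C ^ 2 * 4 ^ j := by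
      calc (W j : ℝ) ^ 2 ≤ (C * 2 ^ j) ^ 2 := pow_le_pow_left₀ hWj.le (hWC j) 2
        _ = C ^ 2 * 4 ^ j := by
          rw [mul_pow, ← pow_mul, mul_comm j 2, pow_mul]
          norm_num
    rw [div_le_div_iff₀ (by positivity) (by positivity)]
    have hl2 : 0 ≤ Real.log 2 := Real.log_nonneg (by norm_num)
    calc Real.log 2 * (W j : ℝ) ^ 2 ≤ Real.log 2 * (C ^ 2 * 4 ^ j) :=
          mul_le_mul_of_nonneg_left h6 hl2
      _ = (4 : ℝ) ^ j * Real.log 2 * C ^ 2 := by ring
      _ ≤ _ := mul_le_mul_of_nonneg_right h3 (by positivity)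
  have hge := ge_of_tendsto (hlim.comp hWtop) (Eventually.of_forall fun j => hlow j)
  exact lt_of_lt_of_le (div_pos (Real.log_pos (by norm_num)) (by positivity)) hge

end Pool.Agent.Results.MP_390418_an.SummableGluing
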